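import Pool.Agent.Helper8.FH.St

/-!
# MP_121524_al : module FH2, the parity lemma
-/

set_option autoImplicit false

namespace Pool.Agent.Helper32.FH

open Pool.Agent.Helper8.FH

/-- A field automorphism fixing the parameters fixes the algebra which they generate. -/
theorem fix_adjoin {κ : Type} (T : κ → ℝ) (γ : ℂ ≃+* ℂ) (hγ : ∀ i, γ (T i : ℂ) = (T i : ℂ))
    {x : ℝ} (hx : x ∈ Algebra.adjoin ℚ (Set.range T)) : γ (x : ℂ) = (x : ℂ) := by
  induction hx using Algebra.adjoin_induction with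
  | mem y hy =>
    obtain ⟨i, rfl⟩ := hy
    exact hγ i
  | algebraMap r =>
    have h1 : ((algebraMap ℚ ℝ r : ℝ) : ℂ) = ((r : ℚ) : ℂ) := by simp
    rw [h1, map_ratCast]
  | add y z _ _ hy hz => rw [Complex.ofReal_add, map_add, hy, hz]
  | mul y z _ _ hy hz => rw [Complex.ofReal_mul, map_mul, hy, hz]

/-- The conjugates of an algebraic element form a finite set. -/
theorem finite_conj {κ : Type} (T : κ → ℝ) {x : ℝ}
    (hx : IsAlgebraic (Algebra.adjoin ℚ (Set.range T)) x) :
    {z : ℂ | ∃ γ : ℂ ≃+* ℂ, (∀ i, γ (T i : ℂ) = (T i : ℂ)) ∧ z = γ (x : ℂ)}.Finite := by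
  obtain ⟨p, hp, hpx⟩ := hx
  let φ : (Algebra.adjoin ℚ (Set.range T)) →+* ℂ :=
    (algebraMap ℝ ℂ).comp (Algebra.adjoin ℚ (Set.range T)).val.toRingHom
  have hφ : Function.Injective φ := by
    intro a b hab
    apply Subtype.ext
    exact (algebraMap ℝ ℂ).injective hab
  have hφv : ∀ a, φ a = ((a : ℝ) : ℂ) := fun a => rfl
  have hP : p.map φ ≠ 0 := (Polynomial.map_ne_zero_iff hφ).2 hp
  have h0 : (p.map φ).eval (x : ℂ) = 0 := by
    have h1 : Polynomial.eval₂ (algebraMap (Algebra.adjoin ℚ (Set.range T)) ℝ) x p = 0 := hpx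
    have h2 : Polynomial.eval₂ φ (x : ℂ) p =
        algebraMap ℝ ℂ (Polynomial.eval₂ (algebraMap (Algebra.adjoin ℚ (Set.range T)) ℝ) x p) := by
      rw [Polynomial.hom_eval₂]
      rfl
    rw [Polynomial.eval_map, h2, h1, map_zero]
  refine ((p.map φ).roots.toFinset.finite_toSet).subset ?_
  rintro z ⟨γ, hγ, rfl⟩
  rw [Finset.mem_coe, Multiset.mem_toFinset, Polynomial.mem_roots hP, Polynomial.IsRoot]
  have h1 : Polynomial.eval₂ φ (γ (x : ℂ)) p = γ (Polynomial.eval₂ φ (x : ℂ) p) := by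
    have h2 := Polynomial.hom_eval₂ p φ γ.toRingHom (x : ℂ)
    have h3 : γ.toRingHom.comp φ = φ := by
      ext a
      exact fix_adjoin T γ hγ a.2
    rw [h3] at h2
    exact h2.symm
  rw [Polynomial.eval_map] at h0 ⊢
  rw [h1, h0, map_zero]

/-- Module FH2: the parity lemma. -/
theorem st_par (h : StAut) : StPar := by
  classical
  intro κ N _ _ T q S S' hT H1 H2 s0 hs0 huniq halg
  obtain ⟨σ, hσ⟩ := h κ T hT q
  let c : ℂ ≃+* ℂ := starRingAut
  have hc : ∀ z, c z = (starRingEnd ℂ) z := fun z => rfl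
  let c' : ℂ ≃+* ℂ := (σ.trans c).trans σ.symm
  have hc' : ∀ z, c' z = σ.symm (c (σ z)) := fun z => rfl
  let O : Set (N → ℂ) := {s | ∃ γ : ℂ ≃+* ℂ, (∀ i, γ (T i : ℂ) = (T i : ℂ)) ∧
    s = fun n => γ (s0 n : ℂ)}
  have hOS : ∀ s ∈ O, s ∈ S := by
    rintro s ⟨γ, hγ, rfl⟩
    exact H1 γ hγ _ hs0
  have hOact : ∀ γ : ℂ ≃+* ℂ, (∀ i, γ (T i : ℂ) = (T i : ℂ)) → ∀ s ∈ O,
      (fun n => γ (s n)) ∈ O := by
    rintro γ hγ s ⟨γ', hγ', rfl⟩
    refine ⟨γ'.trans γ, fun i => ?_, rfl⟩
    rw [RingEquiv.trans_apply, hγ' i, hγ i]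
  have hOfin : O.Finite := by
    refine (Set.Finite.pi' fun n => finite_conj T (halg n)).subset ?_
    rintro s ⟨γ, hγ, rfl⟩ n
    exact ⟨γ, hγ, rfl⟩
  have hcΓ : ∀ i, c (T i : ℂ) = (T i : ℂ) := fun i => by
    rw [hc, Complex.conj_ofReal]
  have hcc : ∀ z, c (c z) = z := fun z => by
    rw [hc, hc, Complex.conj_conj]
  have hc'Γ : ∀ i, c' (T i : ℂ) = (T i : ℂ) := fun i => by
    rw [hc', hσ i, map_add, hcΓ, map_ratCast, ← hσ i, RingEquiv.symm_apply_apply]
  have hcc' : ∀ z, c' (c' z) = z := fun z => by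
    rw [hc', hc', RingEquiv.apply_symm_apply, hcc, RingEquiv.symm_apply_apply]
  have hs0O : (fun n => (s0 n : ℂ)) ∈ O := ⟨RingEquiv.refl ℂ, fun i => rfl, rfl⟩
  -- the number of elements of `O` is odd
  have hodd : ((hOfin.toFinset.card : ℕ) : ZMod 2) = 1 := by
    have h1 : ∑ s ∈ hOfin.toFinset.erase (fun n => (s0 n : ℂ)), (1 : ZMod 2) = 0 := by
      refine Finset.sum_involution (fun s _ => fun n => c (s n)) ?_ ?_ ?_ ?_
      · intro s _
        decide
      · intro s hs _ hs2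
        rw [Finset.mem_erase, Set.Finite.mem_toFinset] at hs
        apply hs.1
        have h2 : ∀ n, ((s n).re : ℂ) = s n := fun n => by
          have h3 := congrFun hs2 n
          rw [hc] at h3
          exact Complex.conj_eq_iff_re.1 h3
        have h3 : (fun n => ((s n).re : ℂ)) ∈ S := by
          have h4 : (fun n => ((s n).re : ℂ)) = s := funext h2
          rw [h4]
          exact hOS s hs.2
        have h5 := huniq (fun n => (s n).re) h3
        funext n
        rw [← h2 n, ← congrFun h5 n]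
      · intro s hs
        rw [Finset.mem_erase, Set.Finite.mem_toFinset] at hs ⊢
        refine ⟨fun h2 => hs.1 ?_, hOact c hcΓ s hs.2⟩
        funext n
        have h3 := congrFun h2 n
        have h4 : c (c (s n)) = c (s0 n : ℂ) := congrArg c h3
        rw [hcc, hc, Complex.conj_ofReal] at h4
        exact h4
      · intro s _
        funext n
        exact hcc (s n)
    have h2 : (∑ s ∈ hOfin.toFinset, (1 : ZMod 2)) = 1 := by
      rw [← Finset.add_sum_erase _ _ ((Set.Finite.mem_toFinset hOfin).2 hs0O), h1, add_zero]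
    rw [Finset.sum_const, nsmul_eq_mul, mul_one] at h2
    exact h2
  -- the second involution has a fixed point
  have hfix : ∃ s ∈ O, (fun n => c' (s n)) = s := by
    by_contra hno
    push Not at hno
    have h1 : ∑ s ∈ hOfin.toFinset, (1 : ZMod 2) = 0 := by
      refine Finset.sum_involution (fun s _ => fun n => c' (s n)) ?_ ?_ ?_ ?_
      · intro s _
        decide
      · intro s hs _ hs2
        exact hno s ((Set.Finite.mem_toFinset hOfin).1 hs) hs2
      · intro s hs
        exact (Set.Finite.mem_toFinset hOfin).2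
          (hOact c' hc'Γ s ((Set.Finite.mem_toFinset hOfin).1 hs))
      · intro s _
        funext n
        exact hcc' (s n)
    rw [Finset.sum_const, nsmul_eq_mul, mul_one, hodd] at h1
    exact one_ne_zero h1
  obtain ⟨s, hs, hsf⟩ := hfix
  refine ⟨fun n => (σ (s n)).re, ?_⟩
  have h1 : (fun n => ((σ (s n)).re : ℂ)) = fun n => σ (s n) := by
    funext n
    have h2 := congrFun hsf n
    have h3 : σ (c' (s n)) = σ (s n) := congrArg σ h2
    rw [hc', RingEquiv.apply_symm_apply, hc] at h3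
    exact Complex.conj_eq_iff_re.1 h3
  rw [h1]
  exact H2 σ hσ s (hOS s hs)

end Pool.Agent.Helper32.FH
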